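import Pool.Agent.H85.TU.Targets

/-!
# Row MHO of tum_modules: the models of a formula form a Borel set
-/

set_option autoImplicit false

namespace Pool.Agent.H86.TU

open Set
open Pool.Agent.H85.TU

theorem le_encard_iff (k : ℕ) (A : Set ℕ) :
    (k : ℕ∞) ≤ A.encard ↔ ∃ s : Finset ℕ, s.card = k ∧ ∀ n ∈ s, n ∈ A := by
  constructor
  · intro h
    obtain ⟨t, ht, hk⟩ := Set.exists_subset_encard_eq h
    have hfin : t.Finite := Set.finite_of_encard_eq_coe hk
    refine ⟨hfin.toFinset, ?_, fun n hn => ht ((Set.Finite.mem_toFinset hfin).1 hn)⟩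
    have h1 : (hfin.toFinset.card : ℕ∞) = k := by
      rw [← hk, hfin.encard_eq_coe_toFinset_card]
    exact_mod_cast h1
  · rintro ⟨s, hs, hA⟩
    have h1 : ((s : Set ℕ)).encard ≤ A.encard := Set.encard_le_encard fun n hn => hA n hn
    rw [Set.encard_coe_eq_coe_finsetCard, hs] at h1
    exact h1

theorem pf_MHO : T_MHO := by
  intro ι ar D _ V _ φ
  induction φ with
  | label i B hB w =>
    intro v
    have h1 : Measurable fun x : Str ar D ℕ => x i (v ∘ w) :=
      (measurable_pi_apply (v ∘ w)).comp (measurable_pi_apply i)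
    exact h1 hB
  | equal a b =>
    intro v
    exact MeasurableSet.const _
  | not φ ih =>
    intro v
    exact (ih v).compl
  | conj φ ih =>
    intro v
    have h1 : {x : Str ar D ℕ | Holds x (Formula.conj φ) v} =
        ⋂ n, {x : Str ar D ℕ | Holds x (φ n) v} := by
      ext x
      rw [mem_iInter]
      exact Iff.rfl
    rw [h1]
    exact MeasurableSet.iInter fun n => ih n v
  | ex a φ ih =>
    intro v
    have h1 : {x : Str ar D ℕ | Holds x (Formula.ex a φ) v} =
        ⋃ n, {x : Str ar D ℕ | Holds x φ (Function.update v a n)} := by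
      ext x
      rw [mem_iUnion]
      exact Iff.rfl
    rw [h1]
    exact MeasurableSet.iUnion fun n => ih _
  | atLeast k a φ ih =>
    intro v
    have h1 : {x : Str ar D ℕ | Holds x (Formula.atLeast k a φ) v} =
        ⋃ s : {s : Finset ℕ // s.card = k}, ⋂ n : {n // n ∈ s.1},
          {x : Str ar D ℕ | Holds x φ (Function.update v a n.1)} := by
      ext x
      rw [mem_iUnion]
      constructor
      · intro h
        obtain ⟨s, hs, hA⟩ := (le_encard_iff k _).1 h
        exact ⟨⟨s, hs⟩, mem_iInter.2 fun n => hA n.1 n.2⟩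
      · rintro ⟨⟨s, hs⟩, hA⟩
        exact (le_encard_iff k _).2 ⟨s, hs, fun n hn => mem_iInter.1 hA ⟨n, hn⟩⟩
    rw [h1]
    exact MeasurableSet.iUnion fun s => MeasurableSet.iInter fun n => ih _

end Pool.Agent.H86.TU
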