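import Pool.Agent.H85.TU.Targets

/-!
# Row PER of tum_modules: existential formulas are preserved by extensions
-/

set_option autoImplicit false

namespace Pool.Agent.H86.TU

open Set
open Pool.Agent.H85.TU

theorem holds_pull {ι : Type} {ar : ι → ℕ} {D : ι → Type} [∀ i, MeasurableSpace (D i)]
    {V : Type} [DecidableEq V] {p : ℕ → ℕ} (hp : Function.Injective p) (x : Str ar D ℕ)
    (φ : Formula V ar D) (v : V → ℕ) (hφ : QuantifierFree φ) :
    Holds (pull x p) φ v ↔ Holds x φ (p ∘ v) := by
  induction φ with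
  | label i B hB w => exact Iff.rfl
  | equal a b => exact (hp.eq_iff (a := v a) (b := v b)).symm
  | not φ ih => exact not_congr (ih hφ)
  | conj φ ih => exact forall_congr' fun n => ih n (hφ n)
  | ex a φ ih => exact hφ.elim
  | atLeast k a φ ih => exact hφ.elim

theorem pf_PER : T_PER := by
  intro ι ar D _ V _ φ hφ x p hp
  induction hφ with
  | free φ hφ => exact fun v h => (holds_pull hp x φ v hφ).1 h
  | conj φ _ ih => exact fun v h n => ih n v (h n)
  | disj φ _ ih =>
    intro v h
    have h1 : ¬ ∀ n, ¬ Holds (pull x p) (φ n) v := h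
    show ¬ ∀ n, ¬ Holds x (φ n) (p ∘ v)
    intro h2
    exact h1 fun n hn => h2 n (ih n v hn)
  | ex a φ _ ih =>
    intro v h
    obtain ⟨n, hn⟩ := h
    refine ⟨p n, ?_⟩
    have h1 := ih _ hn
    rwa [Function.comp_update] at h1

end Pool.Agent.H86.TU
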